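import Mathlib

namespace Pool.Agent.H.MP_8dd099_nt

open Finset

noncomputable def KL (n : ℕ) : ℝ :=
  ∑ d ∈ n.divisors, (d : ℝ) * Real.log ((d : ℝ) / (2 * (Nat.totient d : ℝ)))

def sg (n : ℕ) : ℕ := ∑ d ∈ n.divisors, d

theorem sum_mulp {M : Type} [AddCommMonoid M] (f : ℕ → M) (m p : ℕ) (hm : m ≠ 0) (hp : p.Prime)
    (h : ¬ p ∣ m) : ∑ d ∈ (m * p).divisors, f d
      = ∑ d ∈ m.divisors, f d + ∑ d ∈ m.divisors, f (d * p) := by
  have e : (m * p).divisors = m.divisors ∪ m.divisors.image (· * p) := by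
    ext d
    simp only [Nat.mem_divisors, mem_union, mem_image]
    constructor
    · rintro ⟨hd, -⟩
      by_cases hpd : p ∣ d
      · obtain ⟨e, rfl⟩ := hpd
        right
        refine ⟨e, ⟨?_, hm⟩, mul_comm _ _⟩
        rw [mul_comm p e] at hd
        exact Nat.dvd_of_mul_dvd_mul_right hp.pos hd
      · left
        exact ⟨(((Nat.Prime.coprime_iff_not_dvd hp).2 hpd).symm).dvd_of_dvd_mul_right hd, hm⟩
    · rintro (⟨hd, -⟩ | ⟨e, ⟨he, -⟩, rfl⟩)
      · exact ⟨hd.mul_right _, mul_ne_zero hm hp.ne_zero⟩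
      · exact ⟨Nat.mul_dvd_mul_right he _, mul_ne_zero hm hp.ne_zero⟩
  rw [e, sum_union, sum_image]
  · intro a _ b _ hab
    exact Nat.eq_of_mul_eq_mul_right hp.pos hab
  · rw [disjoint_left]
    intro d hd hd'
    obtain ⟨e, -, rfl⟩ := mem_image.1 hd'
    exact h ((dvd_mul_left p e).trans (Nat.dvd_of_mem_divisors hd))

theorem sg_mulp (m p : ℕ) (hm : m ≠ 0) (hp : p.Prime) (h : ¬ p ∣ m) :
    sg (m * p) = sg m * (p + 1) := by
  unfold sg
  rw [sum_mulp (fun d => d) m p hm hp h, ← sum_mul]; ring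

theorem KL_mulp (m p : ℕ) (hm : m ≠ 0) (hp : p.Prime) (h : ¬ p ∣ m) :
    (p + 1) * KL m + sg m ≤ KL (m * p) := by
  unfold KL sg
  rw [sum_mulp _ m p hm hp h, add_mul, one_mul, add_comm ((p : ℝ) * _), add_assoc, mul_sum]
  push_cast
  rw [← sum_add_distrib]
  refine add_le_add le_rfl (sum_le_sum fun d hd => ?_)
  have hd0 : 0 < d := Nat.pos_of_mem_divisors hd
  have cop : Nat.Coprime d p := ((Nat.Prime.coprime_iff_not_dvd hp).2
    fun hh => h (hh.trans (Nat.dvd_of_mem_divisors hd))).symm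
  have h2 : (2 : ℝ) ≤ p := by exact_mod_cast hp.two_le
  have hdr : (0 : ℝ) < d := by exact_mod_cast hd0
  have ht : (0 : ℝ) < Nat.totient d := by exact_mod_cast Nat.totient_pos.2 hd0
  rw [Nat.totient_mul cop, Nat.totient_prime hp]
  push_cast [Nat.cast_sub hp.one_le]
  have hp1 : (0 : ℝ) < p - 1 := by linarith
  have e : (d : ℝ) * p / (2 * (Nat.totient d * (p - 1)))
      = d / (2 * Nat.totient d) * (p / (p - 1)) := by field_simp
  rw [e, Real.log_mul (by positivity) (by positivity)]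
  have l := Real.one_sub_inv_le_log_of_pos (show (0 : ℝ) < p / (p - 1) by positivity)
  have l2 : 1 - ((p : ℝ) / (p - 1))⁻¹ = 1 / p := by field_simp; ring
  rw [l2] at l
  have l3 : 1 ≤ (p : ℝ) * Real.log (p / (p - 1)) := by
    rw [div_le_iff₀ (by linarith)] at l; linarith
  nlinarith

theorem KL_two (k : ℕ) : KL (2 ^ k) = -Real.log 2 := by
  unfold KL
  rw [Nat.sum_divisors_prime_pow Nat.prime_two, sum_range_succ', sum_eq_zero]
  · simp
  · intro j _
    rw [Nat.totient_prime_pow_succ Nat.prime_two]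
    have : (((2 ^ (j + 1) : ℕ) : ℝ)) / (2 * ((2 ^ j * (2 - 1) : ℕ) : ℝ)) = 1 := by
      push_cast; field_simp; ring
    rw [this]; simp

theorem sg_two (k : ℕ) : sg (2 ^ k) + 1 = 2 * 2 ^ k := by
  unfold sg
  rw [Nat.sum_divisors_prime_pow Nat.prime_two]
  induction k with
  | zero => simp
  | succ k ih => rw [sum_range_succ]; omega

theorem sg_dvd (d n : ℕ) (hn : n ≠ 0) (hd : d ∣ n) (h : sg n < 2 * n) : sg d < 2 * d := by
  obtain ⟨c, rfl⟩ := hd
  have hc : 0 < c := Nat.pos_of_ne_zero (right_ne_zero_of_mul hn)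
  have : sg d * c ≤ sg (d * c) := by
    unfold sg
    rw [sum_mul, ← sum_image (f := fun x => x) (s := d.divisors) (g := (· * c))
      (fun a _ b _ hab => Nat.eq_of_mul_eq_mul_right hc hab)]
    refine sum_le_sum_of_subset fun x hx => ?_
    obtain ⟨e, he, rfl⟩ := mem_image.1 hx
    exact Nat.mem_divisors.2 ⟨Nat.mul_dvd_mul_right (Nat.dvd_of_mem_divisors he) _, hn⟩
  exact Nat.lt_of_mul_lt_mul_right (a := c) (by nlinarith)

theorem ineq (X q p Y K L : ℝ) (hX : 15 ≤ X) (h1 : X < q) (h2 : q ≤ 2 * X)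
    (hY : Y * (q - X) ≤ X * (q + 1)) (hp : p ≤ 2 * Y) (hp0 : 0 ≤ p) (hL : L < 0.6932)
    (hK : (q + 1) * (-L) + X ≤ K) (hK0 : K < 0) : 0 ≤ (p + 1) * K + X * (q + 1) := by
  have hD : 0 < q - X := by linarith
  have k1 : -K ≤ (q - X) / 2 - 1 := by nlinarith
  have k2 : (p + 1) * (-K) ≤ (2 * Y + 1) * ((q - X) / 2 - 1) :=
    mul_le_mul (by linarith) k1 (by linarith) (by linarith)
  have k3 : (2 * Y + 1) * ((q - X) / 2 - 1) * 1 ≤ X * (q + 1) + (q - X) / 2 - 2 * Y - 1 := by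
    nlinarith
  have k4 : (q - X) / 2 ≤ p + 1 ∨ p + 1 < (q - X) / 2 := le_or_gt _ _
  rcases k4 with k4 | k4
  · linarith
  · have : (p + 1) * (-K) ≤ ((q - X) / 2) * ((q - X) / 2) :=
      mul_le_mul k4.le (by linarith) (by linarith) (by linarith)
    nlinarith

theorem ex (k : ℕ) (hk : 3 ≤ k) : ∃ n, n ≠ 0 ∧ sg n < 2 * n ∧ 0 ≤ KL n ∧
    ∀ d, d ∣ n → d ≤ 2 ^ k → d ∣ 2 ^ k := by
  have h8 : 8 ≤ 2 ^ k := (by norm_num : 8 = 2 ^ 3) ▸ Nat.pow_le_pow_right (by norm_num) hk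
  have hs := sg_two k
  obtain ⟨q, hq, h1, h2⟩ := Nat.exists_prime_lt_and_le_two_mul (sg (2 ^ k)) (by omega)
  have hq2 : ¬ q ∣ 2 ^ k := fun h => by
    have := Nat.le_of_dvd (by positivity) h; omega
  have s1 := sg_mulp (2 ^ k) q (by positivity) hq hq2
  have k1 := KL_mulp (2 ^ k) q (by positivity) hq hq2
  have small : ∀ r d m : ℕ, r.Prime → 0 < d → d < r → d ∣ m * r → d ∣ m := fun r d m hr h0 hlt hd =>
    (((Nat.Prime.coprime_iff_not_dvd hr).2
      fun hh => absurd (Nat.le_of_dvd h0 hh) (by omega)).symm).dvd_of_dvd_mul_right hd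
  have hm0 : 2 ^ k * q ≠ 0 := mul_ne_zero (by positivity) hq.ne_zero
  generalize sg (2 ^ k) = X at *
  obtain ⟨D, rfl⟩ : ∃ D, q = X + D := ⟨q - X, by omega⟩
  have e2m : 2 * (2 ^ k * (X + D)) = X * (X + D + 1) + D := by
    rw [← mul_assoc, ← hs]; ring
  by_cases hK : 0 ≤ KL (2 ^ k * (X + D))
  · refine ⟨_, hm0, by rw [s1, e2m]; omega, hK, fun d hd hle => ?_⟩
    exact small _ d _ hq (Nat.pos_of_dvd_of_pos hd (Nat.pos_of_ne_zero hm0)) (by omega) hd
  · have hD : 0 < D := by omega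
    have hY1 := Nat.div_mul_le_self (X * (X + D + 1)) D
    have hY2 := Nat.lt_div_mul_add (a := X * (X + D + 1)) hD
    have hY3 : X + D + 1 ≤ X * (X + D + 1) / D :=
      (Nat.le_div_iff_mul_le hD).2 (by nlinarith)
    generalize X * (X + D + 1) / D = Y at *
    obtain ⟨p, hp, h3, h4⟩ := Nat.exists_prime_lt_and_le_two_mul Y (by omega)
    have hpm : ¬ p ∣ 2 ^ k * (X + D) := fun h => by
      rcases (Nat.Prime.dvd_mul hp).1 h with h | h
      · have := Nat.le_of_dvd (by positivity) h; omega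
      · have := Nat.le_of_dvd (by omega) h; omega
    have s2 := sg_mulp _ p hm0 hp hpm
    have k2 := KL_mulp _ p hm0 hp hpm
    have hn0 := mul_ne_zero hm0 hp.ne_zero
    refine ⟨_, hn0, ?_, ?_, fun d hd hle => ?_⟩
    · rw [s2, s1, ← mul_assoc, e2m]
      have : (Y + 1) * D ≤ p * D := Nat.mul_le_mul_right _ h3
      nlinarith
    · refine le_trans ?_ k2
      rw [s1, KL_two] at *
      push_cast at k1 ⊢
      refine ineq X (X + D) p Y _ (Real.log 2) (by exact_mod_cast (by omega : 15 ≤ X))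
        (by exact_mod_cast h1) (by exact_mod_cast h2) ?_ (by exact_mod_cast h4) (by positivity)
        (Real.log_two_lt_d9.trans (by norm_num)) k1 (lt_of_not_ge hK)
      rw [add_sub_cancel_left]
      exact_mod_cast hY1
    · have h0 := Nat.pos_of_dvd_of_pos hd (Nat.pos_of_ne_zero hn0)
      exact small _ d _ hq h0 (by omega) (small _ d _ hp h0 (by omega) hd)

theorem main : {n : ℕ | 0 < n ∧ sg n < 2 * n ∧ 0 ≤ KL n ∧ ∀ d, d ∣ n → d < n → KL d < 0}.Infinite := by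
  classical
  refine Set.infinite_of_not_bddAbove ?_
  rintro ⟨B, hB⟩
  obtain ⟨n, h0, h1, h2, h3⟩ := ex (B + 3) (by omega)
  have hex : ∃ d, d ∣ n ∧ 0 ≤ KL d := ⟨n, dvd_rfl, h2⟩
  obtain ⟨hd1, hd2⟩ := Nat.find_spec hex
  have hle : Nat.find hex ≤ B := by
    refine hB ⟨Nat.pos_of_dvd_of_pos hd1 (Nat.pos_of_ne_zero h0), sg_dvd _ n h0 hd1 h1, hd2,
      fun d hd hlt => ?_⟩
    by_contra hc
    exact Nat.find_min hex hlt ⟨hd.trans hd1, not_lt.1 hc⟩
  have hlt : B + 3 < 2 ^ (B + 3) := Nat.lt_two_pow_self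
  obtain ⟨j, -, hj⟩ := (Nat.dvd_prime_pow Nat.prime_two).1 (h3 _ hd1 (by omega))
  rw [hj, KL_two] at hd2
  have := Real.log_two_gt_d9
  linarith

end Pool.Agent.H.MP_8dd099_nt
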